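import Pool.Agent.Y981.L2X.Poly

/-!
Square-lattice self-avoiding polygons: the mean area is at most `K ξ² (log n)^4`, where `ξ` is the
correlation length of the self-avoiding walk at distance `1 / (2 n)` from the critical point, and
the area is at least `(ξ / 8)²` with probability at least `exp (-K (log n)^2)`.
-/

set_option autoImplicit false

namespace Pool.Agent.Results.MP_2250b1_co.MeanAreaByCorrelationLogTwo

open Filter Topology

/-- a closed nearest-neighbour loop on `ℤ²` with `m` steps, rooted at the origin and oriented,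
that visits no vertex twice -/
def IsLoop (m : ℕ) (f : ZMod m → ℤ × ℤ) : Prop :=
  f 0 = 0 ∧ Function.Injective f ∧
    ∀ i : ZMod m, |(f (i + 1)).1 - (f i).1| + |(f (i + 1)).2 - (f i).2| = 1

/-- the edge from `f k` to `f (k+1)` is horizontal, joins the columns `x = a` and `x = a + 1`, and
has height larger than `b`: it lies above the unit cell `[a, a+1] × [b, b+1]` -/
def Above (m : ℕ) (f : ZMod m → ℤ × ℤ) (a b : ℤ) (k : ZMod m) : Prop :=
  (((f k).1 = a ∧ (f (k + 1)).1 = a + 1) ∨ ((f k).1 = a + 1 ∧ (f (k + 1)).1 = a)) ∧ b < (f k).2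

/-- the unit cell `[a, a+1] × [b, b+1]` is enclosed by the loop: the vertical ray from the cell
upwards crosses an odd number of edges -/
def Encl (m : ℕ) (f : ZMod m → ℤ × ℤ) (c : ℤ × ℤ) : Prop :=
  Odd (Nat.card {k : ZMod m // Above m f c.1 c.2 k})

/-- the area: the number of unit cells enclosed by the loop -/
noncomputable def area (m : ℕ) (f : ZMod m → ℤ × ℤ) : ℕ := Nat.card {c : ℤ × ℤ // Encl m f c}

/-- the mean area `A_n` of the self-avoiding polygons of perimeter `2 n`: the average of the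
area over the rooted oriented polygons. -/
noncomputable def A (n : ℕ) : ℝ :=
  (∑ᶠ f ∈ {f : ZMod (2 * n) → ℤ × ℤ | IsLoop (2 * n) f}, (area (2 * n) f : ℝ)) /
    ({f : ZMod (2 * n) → ℤ × ℤ | IsLoop (2 * n) f}.ncard : ℝ)

/-- the proportion of the self-avoiding polygons of perimeter `2 n` with area at least `r` -/
noncomputable def large (n : ℕ) (r : ℝ) : ℝ :=
  ({f : ZMod (2 * n) → ℤ × ℤ | IsLoop (2 * n) f ∧ r ≤ area (2 * n) f}.ncard : ℝ) /
    ({f : ZMod (2 * n) → ℤ × ℤ | IsLoop (2 * n) f}.ncard : ℝ)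

/-- `ω` is an `n`-step self-avoiding walk on `ℤ²` started at the origin. -/
def IsSAW (n : ℕ) (ω : Fin (n + 1) → ℤ × ℤ) : Prop :=
  ω 0 = (0, 0) ∧
  (∀ i : Fin n, |(ω i.succ).1 - (ω i.castSucc).1| + |(ω i.succ).2 - (ω i.castSucc).2| = 1) ∧
  Function.Injective ω

/-- `c_n`: the number of `n`-step self-avoiding walks from the origin -/
noncomputable def c (n : ℕ) : ℕ := Nat.card {ω : Fin (n + 1) → ℤ × ℤ // IsSAW n ω}

/-- `c_n(x)`: the number of `n`-step self-avoiding walks from the origin to `x` -/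
noncomputable def cx (n : ℕ) (x : ℤ × ℤ) : ℕ :=
  Nat.card {ω : Fin (n + 1) → ℤ × ℤ // IsSAW n ω ∧ ω (Fin.last n) = x}

/-- the two-point function `G_z(x) = ∑_n c_n(x) z^n` -/
noncomputable def G (z : ℝ) (x : ℤ × ℤ) : ℝ := ∑' n : ℕ, (cx n x : ℝ) * z ^ n

theorem c_eq (n : ℕ) : c n = TH795.EP.c n := TH795.EP2.card_walks n

theorem cx_eq (n : ℕ) (x : ℤ × ℤ) : cx n x = TH795.EP.a n x.1 x.2 := TH795.EP2.card_walks_to n x

theorem G_eq (z : ℝ) (k : ℕ) : G z ((k : ℤ), 0) = Y981.L2.Gz z k 0 := by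
  unfold G Y981.L2.Gz
  apply tsum_congr
  intro n
  rw [cx_eq]

/-- **Theorem.** Let `μ = lim c_n^(1/n)`.  For `0 < z < 1/μ` the correlation length
`ξ(z) = (lim_k - (1/k) log G_z((k, 0)))^(-1)` of the self-avoiding walk exists and is positive and
finite.  There is `K` such that for every `n ≥ 2`, with `ξ_n = ξ(e^(-1/(2n)) / μ)`:
`A_n ≤ K ξ_n² (log n)^4`; the proportion of the polygons of perimeter `2 n` with area at least `k²`
is at most `exp (K (log n)^2 - 2 k / ξ_n)` for all `1 ≤ k < n`, and it is at least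
`exp (- K (log n)^2)` for all `1 ≤ k ≤ ξ_n / 8` with `2 k < n`. -/
theorem result : ∃ (μ : ℝ) (ξ : ℝ → ℝ), 0 < μ ∧
    Tendsto (fun n : ℕ => (c n : ℝ) ^ (1 / (n : ℝ))) atTop (𝓝 μ) ∧
    (∀ z : ℝ, 0 < z → z < 1 / μ → 0 < ξ z ∧
      Tendsto (fun k : ℕ => - Real.log (G z ((k : ℤ), 0)) / k) atTop (𝓝 (1 / ξ z))) ∧
    ∃ K : ℝ, ∀ n : ℕ, 2 ≤ n → ∀ x : ℝ, x = ξ (Real.exp (-1 / (2 * n)) / μ) →
      A n ≤ K * x ^ 2 * Real.log n ^ 4 ∧
      (∀ k : ℕ, 1 ≤ k → k < n →
        large n ((k : ℝ) ^ 2) ≤ Real.exp (K * Real.log n ^ 2 - 2 * k / x)) ∧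
      (∀ k : ℕ, 1 ≤ k → 2 * k < n → (k : ℝ) ≤ x / 8 →
        Real.exp (-(K * Real.log n ^ 2)) ≤ large n ((k : ℝ) ^ 2)) := by
  have hmu := H981.mu_pos
  refine ⟨H981.mu, Y981.L2.xi, hmu, ?_, ?_, ?_⟩
  · have h := H981.tendsto_root
    refine h.congr ?_
    intro n
    rw [c_eq, TH795.EP.c_eq]
  · intro z hz hz1
    have he : 0 < -Real.log (z * H981.mu) := by
      have h1 : z * H981.mu < 1 := by rwa [lt_div_iff₀ hmu] at hz1
      have h2 := Real.log_neg (mul_pos hz hmu) h1
      linarith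
    have hm := Y981.L2.mass_pos he
    constructor
    · unfold Y981.L2.xi
      positivity
    · have h := Y981.L2.G_tendsto hz hz1
      unfold Y981.L2.xi
      rw [one_div_one_div]
      refine h.congr ?_
      intro k
      rw [G_eq]
  · obtain ⟨K1, hK1, h1⟩ := Y981.L2X.area_mean
    obtain ⟨K2, hK2, h2⟩ := Y981.L2X.pw_upper
    obtain ⟨K3, hK3, h3⟩ := Y981.L2X.area_tail
    refine ⟨K1 + K2 + K3 + 5, fun n hn x hx => ?_⟩
    have hn0 : (0 : ℝ) < n := by exact_mod_cast (by omega : 0 < n)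
    have hL4 := Y981.L2X.L4_ge hn
    have hL8 : 0 ≤ Real.log (n : ℝ) ^ 4 := by positivity
    have p1 : 0 ≤ K1 * Real.log (n : ℝ) ^ 2 := by positivity
    have p2 : 0 ≤ K2 * Real.log (n : ℝ) ^ 2 := by positivity
    have p3 : 0 ≤ K3 * Real.log (n : ℝ) ^ 2 := by positivity
    have hm : 0 < Y981.L2.mass (1 / (2 * (n : ℝ))) := Y981.L2.mass_pos (by positivity)
    have hxi : x = 1 / Y981.L2.mass (1 / (2 * (n : ℝ))) := by
      rw [hx]
      unfold Y981.L2.xi
      have e := Y981.L2.e_z (1 / (2 * (n : ℝ)))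
      have e2 : -(1 / (2 * (n : ℝ))) = -1 / (2 * n) := by ring
      rw [e2] at e
      rw [e]
    obtain ⟨m, hmm⟩ : ∃ m, m = Y981.L2.mass (1 / (2 * (n : ℝ))) := ⟨_, rfl⟩
    have g1 := h1 n hn
    rw [← hmm] at hxi hm g1
    refine ⟨?_, ?_, ?_⟩
    · rw [hxi]
      have : A n = Y981.L2.ma n := rfl
      rw [this]
      refine g1.trans ?_
      apply mul_le_mul_of_nonneg_right _ hL8
      apply mul_le_mul_of_nonneg_right _ (sq_nonneg _)
      linarith
    · intro k hk hkn
      have g2 := h2 n hn k hk hkn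
      rw [← hmm] at g2
      have g3 := Y981.L2.par_le (n := n) (by omega) (r := (k : ℝ)) (Nat.cast_nonneg k)
      have : large n ((k : ℝ) ^ 2) = Y981.L2.par n ((k : ℝ) ^ 2) := rfl
      rw [this]
      have e1 : 2 * (k : ℝ) / x = 2 * k * m := by
        rw [hxi]
        field_simp
      rw [e1]
      have e2 : (2 : ℝ) ≤ Real.exp 1 := by
        have := Real.exp_one_gt_d9
        linarith
      calc Y981.L2.par n ((k : ℝ) ^ 2) ≤ 2 * Y981.L2.pw n k := g3
        _ ≤ Real.exp 1 * Real.exp (K2 * Real.log n ^ 2 - 2 * k * m) := by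
            apply mul_le_mul e2 g2 _ (Real.exp_pos _).le
            exact div_nonneg (Nat.cast_nonneg _) (Nat.cast_nonneg _)
        _ = Real.exp (1 + (K2 * Real.log n ^ 2 - 2 * k * m)) := by rw [← Real.exp_add]
        _ ≤ _ := by
            apply Real.exp_le_exp.2
            linarith
    · intro k hk hkn hkx
      have : large n ((k : ℝ) ^ 2) = Y981.L2.par n ((k : ℝ) ^ 2) := rfl
      rw [this]
      have e1 : (k : ℝ) * Y981.L2.mass (1 / (2 * n)) ≤ 1 / 8 := by
        rw [← hmm]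
        rw [hxi] at hkx
        have := mul_le_mul_of_nonneg_right hkx hm.le
        have e2 : 1 / m / 8 * m = 1 / 8 := by field_simp
        linarith
      refine le_trans (Real.exp_le_exp.2 ?_) (h3 n hn k hk hkn e1)
      linarith

end Pool.Agent.Results.MP_2250b1_co.MeanAreaByCorrelationLogTwo
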