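import Pool.Agent.Y943.SL.PolA

/-!
Mean area of square-lattice self-avoiding polygons: if the number and the mean area of the polygons
obey power laws along a set of `n` with gaps `o(√n)`, they do so for all `n`.
-/

set_option autoImplicit false

namespace Pool.Agent.Results.MP_2250b1_co.SparseLengths

open Filter Topology

/-- the number of `n`-step self-avoiding walks on `ℤ²` started at the origin -/
noncomputable def c (n : ℕ) : ℕ :=
  Nat.card {f : Fin (n + 1) → ℤ × ℤ // f 0 = 0 ∧ Function.Injective f ∧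
    ∀ i : Fin n, |(f i.succ).1 - (f i.castSucc).1| + |(f i.succ).2 - (f i.castSucc).2| = 1}

/-- a closed nearest-neighbour loop on `ℤ²` with `m` steps, rooted at the origin and oriented,
that visits no vertex twice -/
def IsLoop (m : ℕ) (f : ZMod m → ℤ × ℤ) : Prop :=
  f 0 = 0 ∧ Function.Injective f ∧
    ∀ i : ZMod m, |(f (i + 1)).1 - (f i).1| + |(f (i + 1)).2 - (f i).2| = 1

/-- the number of self-avoiding polygons of perimeter `2n` on `ℤ²` up to translation: the number of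
loops divided by `4n` (the choices of the starting point and of the orientation) -/
noncomputable def p (n : ℕ) : ℝ :=
  ((Nat.card {f : ZMod (2 * n) → ℤ × ℤ // IsLoop (2 * n) f} : ℕ) : ℝ) / (4 * (n : ℝ))

/-- the edge from `f k` to `f (k+1)` is horizontal, joins the columns `x = a` and `x = a + 1`, and
has height larger than `b`: it lies above the unit cell `[a, a+1] × [b, b+1]` -/
def Above (m : ℕ) (f : ZMod m → ℤ × ℤ) (a b : ℤ) (k : ZMod m) : Prop :=
  (((f k).1 = a ∧ (f (k + 1)).1 = a + 1) ∨ ((f k).1 = a + 1 ∧ (f (k + 1)).1 = a)) ∧ b < (f k).2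

/-- the unit cell `[a, a+1] × [b, b+1]` is enclosed by the loop: the vertical ray from the cell
upwards crosses an odd number of edges -/
def Encl (m : ℕ) (f : ZMod m → ℤ × ℤ) (c : ℤ × ℤ) : Prop :=
  Odd (Nat.card {k : ZMod m // Above m f c.1 c.2 k})

/-- the area: the number of unit cells enclosed by the loop -/
noncomputable def area (m : ℕ) (f : ZMod m → ℤ × ℤ) : ℕ := Nat.card {c : ℤ × ℤ // Encl m f c}

/-- the mean area `A_n` of the self-avoiding polygons of perimeter `2 n`: the average of the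
area over the rooted oriented polygons. -/
noncomputable def A (n : ℕ) : ℝ :=
  (∑ᶠ f ∈ {f : ZMod (2 * n) → ℤ × ℤ | IsLoop (2 * n) f}, (area (2 * n) f : ℝ)) /
    ({f : ZMod (2 * n) → ℤ × ℤ | IsLoop (2 * n) f}.ncard : ℝ)

lemma c_eq (n : ℕ) : (c n : ℝ) = H981.cr' n := by
  rw [H981.cr'_eq]
  unfold c H981.C H981.IsSAW
  congr 1
  apply Nat.card_congr
  apply Equiv.subtypeEquivRight
  intro f
  constructor
  · rintro ⟨h0, h1, h2⟩
    exact ⟨h0, h2, h1⟩
  · rintro ⟨h0, h2, h1⟩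
    exact ⟨h0, h1, h2⟩

lemma p_eq (n : ℕ) : p n = H981.PP n := rfl

lemma A_eq (n : ℕ) : A n = Pool.Agent.H739K.MA n := rfl

/-- the gaps of the set `S` are `o(√n)` -/
def SmallGaps (S : Set ℕ) : Prop :=
  ∀ δ : ℝ, 0 < δ → ∀ᶠ n : ℕ in atTop, ∃ m ∈ S, n ≤ m ∧ (m : ℝ) ≤ n + δ * Real.sqrt n

/-- the gaps of the set `S` are `O(√n)` -/
def BoundedGaps (S : Set ℕ) : Prop :=
  ∃ K : ℝ, ∀ᶠ n : ℕ in atTop, ∃ m ∈ S, n ≤ m ∧ (m : ℝ) ≤ n + K * Real.sqrt n

/-- the gaps of the set `S` are `o(√(n log n))` -/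
def LogGaps (S : Set ℕ) : Prop :=
  ∀ δ : ℝ, 0 < δ → ∀ᶠ n : ℕ in atTop, ∃ m ∈ S, n ≤ m ∧
    (m : ℝ) ≤ n + δ * Real.sqrt (n * Real.log n)

/-- **Theorem.** Let `μ` be the connective constant of `ℤ²`, `q_n = p_{2n} μ^(-2n)`, `A_n` the mean
area of the polygons of perimeter `2n`.  For every set `S` of natural numbers and all real `θ` and
`κ > 1`:
(1) if `S` has gaps `o(√n)` and `q_n n^θ → C > 0`, `A_n / n^κ → E > 0` along `S`, then
`A_n / n^κ → E`;
(2) if `S` has gaps `O(√n)` and `q_n n^θ`, `A_n / n^κ` are bounded and bounded away from `0` along `S`,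
then `A_n / n^κ` is bounded and bounded away from `0`;
(3) if `S` has gaps `o(√(n log n))` and `log q_n / log n → -θ`, `log A_n / log n → κ` along `S`, then
`log A_n / log n → κ`. -/
theorem result : ∃ μ : ℝ, 0 < μ ∧
    Tendsto (fun n : ℕ => (c n : ℝ) ^ ((1:ℝ) / (n : ℝ))) atTop (𝓝 μ) ∧
    ∀ (S : Set ℕ) (θ κ : ℝ), 1 < κ →
      (SmallGaps S → ∀ C E : ℝ, 0 < C → 0 < E →
        Tendsto (fun n : ℕ => p n / μ ^ (2 * n) * (n : ℝ) ^ θ) (atTop ⊓ 𝓟 S) (𝓝 C) →
        Tendsto (fun n : ℕ => A n / (n : ℝ) ^ κ) (atTop ⊓ 𝓟 S) (𝓝 E) →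
        Tendsto (fun n : ℕ => A n / (n : ℝ) ^ κ) atTop (𝓝 E)) ∧
      (BoundedGaps S →
        (∃ a b : ℝ, 0 < a ∧ ∀ᶠ n : ℕ in atTop, n ∈ S →
          a ≤ p n / μ ^ (2 * n) * (n : ℝ) ^ θ ∧ p n / μ ^ (2 * n) * (n : ℝ) ^ θ ≤ b) →
        (∃ a b : ℝ, 0 < a ∧ ∀ᶠ n : ℕ in atTop, n ∈ S →
          a ≤ A n / (n : ℝ) ^ κ ∧ A n / (n : ℝ) ^ κ ≤ b) →
        ∃ a b : ℝ, 0 < a ∧ ∀ᶠ n : ℕ in atTop,
          a ≤ A n / (n : ℝ) ^ κ ∧ A n / (n : ℝ) ^ κ ≤ b) ∧
      (LogGaps S →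
        Tendsto (fun n : ℕ => Real.log (p n / μ ^ (2 * n)) / Real.log n) (atTop ⊓ 𝓟 S)
          (𝓝 (-θ)) →
        Tendsto (fun n : ℕ => Real.log (A n) / Real.log n) (atTop ⊓ 𝓟 S) (𝓝 κ) →
        Tendsto (fun n : ℕ => Real.log (A n) / Real.log n) atTop (𝓝 κ)) := by
  refine ⟨H981.mu, H981.mu_pos, ?_, fun S θ κ hκ => ⟨fun hS C E hC hE h hW => ?_,
    fun hS h hW => ?_, fun hS h hW => ?_⟩⟩
  · simp only [c_eq]
    exact H981.tendsto_root
  · exact Pool.Agent.Y943.SL.area_form S hS C E θ κ hκ hC hE h hW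
  · exact Pool.Agent.Y943.SL.area_bdd S hS θ κ hκ h hW
  · exact Pool.Agent.Y943.SL.area_expo S hS θ κ hκ h hW

end Pool.Agent.Results.MP_2250b1_co.SparseLengths
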